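import Mathlib
import Pool.Agent.H67.Nu.Points
import Pool.Agent.H77.Nu.BlkT.Main2
import Pool.Agent.H77.Z12.Points

/-!
From twelve points in `ℝ^5` to the exact value `ν(5) = 12` (MP_1e71f9_co).

`exists_snoc`: a family of at least `d + 1` points of `ℝ^d` in general position can be extended by
one point of the moment curve. `mappable_of_snoc`: a subfamily of a family that can be mapped to
convex position can be mapped too. Together with `main2` (for every `n ≥ 13` some `n` points in
general position in `ℝ^5` cannot be mapped) this gives the exact value.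
-/

set_option autoImplicit false

namespace Pool.Agent.H96.Z12

open Finset Matrix Pool.Agent.H67.Nu Pool.Agent.H77.Z12

/-- A nonzero linear functional vanishes only finitely often on the moment curve. -/
theorem finite_moment {m : ℕ} (L : (Fin m → ℝ) →ₗ[ℝ] ℝ) (hL : L ≠ 0) :
    {t : ℝ | L (fun i => t ^ (i : ℕ)) = 0}.Finite := by
  classical
  let P : Polynomial ℝ := ∑ i : Fin m, Polynomial.monomial (i : ℕ) (L (Pi.single i 1))
  have hsum : ∀ v : Fin m → ℝ, L v = ∑ i, v i * L (Pi.single i 1) := by
    intro v
    have h1 := pi_eq_sum_univ' v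
    calc L v = L (∑ i, v i • (Pi.single i (1 : ℝ) : Fin m → ℝ)) := by rw [← h1]
      _ = ∑ i, v i * L (Pi.single i 1) := by simp [map_sum]
  have hP : P ≠ 0 := by
    intro h0
    apply hL
    refine LinearMap.ext fun v => ?_
    rw [hsum v, LinearMap.zero_apply]
    refine Finset.sum_eq_zero fun i _ => ?_
    have h1 : P.coeff (i : ℕ) = L (Pi.single i 1) := by
      simp only [P, Polynomial.finsetSum_coeff, Polynomial.coeff_monomial]
      rw [Finset.sum_eq_single i]
      · simp
      · intro b _ hb
        rw [if_neg]
        exact fun h => hb (Fin.ext h)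
      · intro h
        exact absurd (Finset.mem_univ i) h
    rw [← h1, h0, Polynomial.coeff_zero, mul_zero]
  refine (Polynomial.finite_setOfPred_isRoot hP).subset fun t ht => ?_
  have h2 : P.eval t = L (fun i => t ^ (i : ℕ)) := by
    rw [hsum]
    simp only [P, Polynomial.eval_finsetSum, Polynomial.eval_monomial]
    exact Finset.sum_congr rfl fun i _ => mul_comm _ _
  show P.eval t = 0
  rw [h2]
  exact ht

/-- The determinant as a function of one row. -/
theorem det_updateRow_linear {m : ℕ} (A : Matrix (Fin m) (Fin m) ℝ) (i : Fin m)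
    (v : Fin m → ℝ) : (A.updateRow i v).det = (LinearMap.proj i ∘ₗ Matrix.cramer Aᵀ) v := by
  rw [LinearMap.comp_apply, LinearMap.proj_apply, Matrix.cramer_transpose_apply]

/-- One more point in general position. -/
theorem exists_snoc {n d : ℕ} (hn : d + 1 ≤ n) (x : Fin n → Fin d → ℝ) (hx : GenPos x) :
    ∃ p : Fin d → ℝ, GenPos (Fin.snoc (α := fun _ => Fin d → ℝ) x p) := by
  classical
  have hg := gen_hom hx
  -- the functional belonging to an injective map `f` and a place `i`
  let A : (Fin (d + 1) → Fin (n + 1)) → Matrix (Fin (d + 1)) (Fin (d + 1)) ℝ := fun f =>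
    Matrix.of fun i => hom (Fin.snoc (α := fun _ => Fin d → ℝ) x 0) (f i)
  let L : (Fin (d + 1) → Fin (n + 1)) → Fin (d + 1) → (Fin (d + 1) → ℝ) →ₗ[ℝ] ℝ := fun f i =>
    LinearMap.proj i ∘ₗ Matrix.cramer (A f)ᵀ
  have hL : ∀ (f : Fin (d + 1) → Fin (n + 1)), Function.Injective f → ∀ i, f i = Fin.last n →
      L f i ≠ 0 := by
    intro f hf i hi h0
    -- a point which does not occur
    obtain ⟨k, hk⟩ : ∃ k : Fin n, ∀ j, f j ≠ k.castSucc := by
      by_contra hcon
      push Not at hcon
      choose g hgk using hcon
      have hg1 : Function.Injective (fun o : Option (Fin n) => (o.elim i g : Fin (d + 1))) := by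
        intro a b hab
        have key : ∀ c : Fin n, g c ≠ i := by
          intro c hc
          have h1 := hgk c
          rw [hc, hi] at h1
          exact (Fin.castSucc_lt_last c).ne h1.symm
        rcases a with _ | a <;> rcases b with _ | b
        · rfl
        · exact absurd hab.symm (key b)
        · exact absurd hab (key a)
        · have h1 : g a = g b := hab
          have h2 : a.castSucc = b.castSucc := by rw [← hgk a, ← hgk b, h1]
          rw [Fin.castSucc_injective n h2]
      have h3 := Fintype.card_le_of_injective _ hg1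
      rw [Fintype.card_option, Fintype.card_fin, Fintype.card_fin] at h3
      omega
    let f' : Fin (d + 1) → Fin n := fun j => if h : f j = Fin.last n then k else (f j).castPred h
    have hf'1 : f' i = k := by simp [f', hi]
    have hf'2 : ∀ j, j ≠ i → (f' j).castSucc = f j := by
      intro j hj
      have h1 : f j ≠ Fin.last n := fun h => hj (hf (h.trans hi.symm))
      simp [f', h1]
    have hf' : Function.Injective f' := by
      intro a b hab
      by_cases ha : a = i <;> by_cases hb : b = i
      · rw [ha, hb]
      · exfalso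
        rw [ha, hf'1] at hab
        apply hk b
        rw [← hf'2 b hb, ← hab]
      · exfalso
        rw [hb, hf'1] at hab
        apply hk a
        rw [← hf'2 a ha, hab]
      · apply hf
        rw [← hf'2 a ha, ← hf'2 b hb, hab]
    have hrow : (A f).updateRow i (hom x k) = Matrix.of fun j => hom x (f' j) := by
      ext j l
      by_cases hj : j = i
      · subst hj
        rw [Matrix.updateRow_self, Matrix.of_apply, hf'1]
      · rw [Matrix.updateRow_ne hj]
        show hom (Fin.snoc (α := fun _ => Fin d → ℝ) x 0) (f j) l = hom x (f' j) l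
        simp only [hom]
        rw [← hf'2 j hj, Fin.snoc_castSucc]
    apply hg f' hf'
    rw [← hrow, det_updateRow_linear]
    show L f i (hom x k) = 0
    rw [h0, LinearMap.zero_apply]
  -- the finitely many bad parameters
  have hfin : (⋃ f ∈ {f : Fin (d + 1) → Fin (n + 1) | Function.Injective f},
      ⋃ i ∈ {i : Fin (d + 1) | f i = Fin.last n},
        {t : ℝ | L f i (fun l : Fin (d + 1) => t ^ (l : ℕ)) = 0}).Finite :=
    Set.Finite.biUnion (Set.toFinite _) fun f hf =>
      Set.Finite.biUnion (Set.toFinite _) fun i hi => finite_moment _ (hL f hf i hi)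
  obtain ⟨t, ht⟩ := hfin.exists_notMem
  let p : Fin d → ℝ := fun k => t ^ ((k : ℕ) + 1)
  refine ⟨p, ?_⟩
  have hp : (Fin.cons 1 p : Fin (d + 1) → ℝ) = fun l : Fin (d + 1) => t ^ (l : ℕ) := by
    funext l
    refine Fin.cases ?_ (fun a => ?_) l
    · simp
    · simp [p]
  let w : Fin (n + 1) → Fin (d + 1) → ℝ := hom (Fin.snoc (α := fun _ => Fin d → ℝ) x p)
  have hdet : ∀ f : Fin (d + 1) → Fin (n + 1), Function.Injective f →
      (Matrix.of fun i => w (f i)).det ≠ 0 := by
    intro f hf
    by_cases hlast : ∃ i, f i = Fin.last n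
    · obtain ⟨i, hi⟩ := hlast
      have hrow : (Matrix.of fun j => w (f j)) =
          (A f).updateRow i (fun l : Fin (d + 1) => t ^ (l : ℕ)) := by
        ext j l
        by_cases hj : j = i
        · subst hj
          rw [Matrix.updateRow_self, Matrix.of_apply, hi]
          simp only [w, hom]
          rw [Fin.snoc_last, hp]
        · rw [Matrix.updateRow_ne hj]
          have h1 : f j ≠ Fin.last n := fun h => hj (hf (h.trans hi.symm))
          obtain ⟨a, ha⟩ : ∃ a : Fin n, a.castSucc = f j := ⟨(f j).castPred h1, by simp⟩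
          show w (f j) l = hom (Fin.snoc (α := fun _ => Fin d → ℝ) x 0) (f j) l
          simp only [w, hom]
          rw [← ha, Fin.snoc_castSucc, Fin.snoc_castSucc]
      rw [hrow, det_updateRow_linear]
      intro h0
      apply ht
      simp only [Set.mem_iUnion]
      exact ⟨f, hf, i, hi, h0⟩
    · push Not at hlast
      have hrow : (Matrix.of fun j => w (f j)) =
          Matrix.of fun j => hom x ((f j).castPred (hlast j)) := by
        ext j l
        rw [Matrix.of_apply, Matrix.of_apply]
        obtain ⟨a, ha⟩ : ∃ a : Fin n, a.castSucc = f j := ⟨(f j).castPred (hlast j), by simp⟩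
        have h2 : (f j).castPred (hlast j) = a := by
          apply Fin.castSucc_injective n
          rw [ha]
          simp
        rw [h2]
        simp only [w, hom]
        rw [← ha, Fin.snoc_castSucc]
      rw [hrow]
      apply hg
      intro a b hab
      apply hf
      have h3 := congrArg Fin.castSucc hab
      simpa using h3
  have h0 : ∀ j, w j 0 ≠ 0 := by
    intro j
    simp [w, hom]
  have hfinal := genPos_of_det w hdet h0
  have heq : (fun j (i : Fin d) => w j i.succ / w j 0) =
      Fin.snoc (α := fun _ => Fin d → ℝ) x p := by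
    funext j i
    simp [w, hom]
  rw [heq] at hfinal
  exact hfinal

/-- Removing the last point. -/
theorem mappable_of_snoc {n d : ℕ} {x : Fin n → Fin d → ℝ} {p : Fin d → ℝ}
    (h : Mappable (Fin.snoc (α := fun _ => Fin d → ℝ) x p)) : Mappable x := by
  obtain ⟨T, hden, hvert⟩ := h
  have hc : ∀ j : Fin n, (Fin.snoc (α := fun _ => Fin d → ℝ) x p) j.castSucc = x j := fun j =>
    Fin.snoc_castSucc (α := fun _ => Fin d → ℝ) p x j
  refine ⟨T, fun j => ?_, fun j hj => ?_⟩
  · have := hden j.castSucc
    rwa [hc] at this
  · apply hvert j.castSucc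
    rw [hc]
    refine convexHull_mono ?_ hj
    rintro y ⟨k, hk, rfl⟩
    refine ⟨k.castSucc, fun h => hk (Fin.castSucc_injective n h), ?_⟩
    show T.map ((Fin.snoc (α := fun _ => Fin d → ℝ) x p) k.castSucc) = T.map (x k)
    rw [hc]

/-- The property is inherited downwards as long as there are at least `d + 1` points. -/
theorem step_down {n d : ℕ} (hn : d + 1 ≤ n)
    (h : ∀ x : Fin (n + 1) → Fin d → ℝ, GenPos x → Mappable x) (x : Fin n → Fin d → ℝ)
    (hx : GenPos x) : Mappable x := by
  obtain ⟨p, hp⟩ := exists_snoc hn x hx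
  exact mappable_of_snoc (h _ hp)

theorem all_down {d : ℕ} (m n : ℕ) (hn : d + 1 ≤ n)
    (h : ∀ x : Fin (n + m) → Fin d → ℝ, GenPos x → Mappable x) :
    ∀ x : Fin n → Fin d → ℝ, GenPos x → Mappable x := by
  induction m with
  | zero => exact h
  | succ m ih => exact ih (fun x hx => step_down (n := n + m) (by omega) h x hx)

/-- The exact value for `d = 5`: if every twelve points in general position in `ℝ^5` can be
mapped, then twelve is the largest number with this property. -/
theorem isGreatest_of_twelve (h : ∀ x : Fin 12 → Fin 5 → ℝ, GenPos x → Mappable x) :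
    IsGreatest {n : ℕ | ∀ x : Fin n → Fin 5 → ℝ, GenPos x → Mappable x} 12 := by
  refine ⟨h, fun n hn => ?_⟩
  by_contra hcon
  obtain ⟨x, hx, hx'⟩ := Pool.Agent.H77.Nu.BlkT.main2 5 n (by norm_num) (by omega)
  exact hx' (hn x hx)

/-- For `n ≥ 6` (below that number the condition of general position is void): every `n` points
in general position in `ℝ^5` can be mapped if and only if `n ≤ 12`. -/
theorem exact_of_twelve (h : ∀ x : Fin 12 → Fin 5 → ℝ, GenPos x → Mappable x) (n : ℕ)
    (h6 : 6 ≤ n) : (∀ x : Fin n → Fin 5 → ℝ, GenPos x → Mappable x) ↔ n ≤ 12 := by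
  constructor
  · intro hn
    exact (isGreatest_of_twelve h).2 hn
  · intro hn
    obtain ⟨m, hm⟩ := Nat.exists_eq_add_of_le hn
    refine all_down m n (by omega) ?_
    rw [← hm]
    exact h

/-- Both forms of the exact value together. -/
theorem nu_five (h : ∀ x : Fin 12 → Fin 5 → ℝ, GenPos x → Mappable x) :
    IsGreatest {n : ℕ | ∀ x : Fin n → Fin 5 → ℝ, GenPos x → Mappable x} 12 ∧
      ∀ n, 6 ≤ n → ((∀ x : Fin n → Fin 5 → ℝ, GenPos x → Mappable x) ↔ n ≤ 12) :=
  ⟨isGreatest_of_twelve h, fun n hn => exact_of_twelve h n hn⟩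

end Pool.Agent.H96.Z12
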